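import Pool.Agent.AT12.Stmts3

/-!
# AT12, row TCC: the types are closed under quotients
-/

open scoped BigOperators

noncomputable section

namespace Pool.Agent.PP.T12.H62

open Pool.Agent.Helper51_AWC Pool.Agent.Helper79_WRA Pool.Agent.PP Pool.Agent.PP.KF
open Pool.Agent.PP.K9 Pool.Agent.PP.K9.H97 Pool.Agent.PP.H75 Pool.Agent.PP.T3 Pool.Agent.PP.T2
open Pool.Agent.PP.T8

theorem tcc (tc8 : T8.Tc8Stmt) : TccStmt := by
  intro ℓ _ F _ hF G A _ _ _ _ e V γ f V' γ' hL hL' hix a hty hexp hfq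
  rcases hty with h8 | hb
  · exact Or.inl (tc8 ℓ F hF G A e V γ f V' γ' hL hL' hix a h8 hexp hfq)
  · obtain ⟨π, hπ, -⟩ := hfq
    refine Or.inr ⟨hb.le, hexp, ?_⟩
    obtain ⟨x, y, hxy⟩ := hb.gen
    have hx : x ∈ V := by rw [hxy]; exact Subgroup.subset_closure (Or.inl rfl)
    have hy : y ∈ V := by rw [hxy]; exact Subgroup.subset_closure (Or.inr rfl)
    refine ⟨π ⟨x, hx⟩, π ⟨y, hy⟩, ?_⟩
    have h1 : Subgroup.closure {(⟨x, hx⟩ : V), ⟨y, hy⟩} = ⊤ := by
      apply Subgroup.map_injective V.subtype_injective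
      rw [MonoidHom.map_closure, Set.image_pair]
      change Subgroup.closure {x, y} = Subgroup.map V.subtype ⊤
      rw [← hxy, ← MonoidHom.range_eq_map, Subgroup.range_subtype]
    have h2 : Subgroup.closure {π ⟨x, hx⟩, π ⟨y, hy⟩} = ⊤ := by
      have h3 := congrArg (Subgroup.map π) h1
      rw [MonoidHom.map_closure, Set.image_pair, Subgroup.map_top_of_surjective π hπ] at h3
      exact h3
    have h3 := congrArg (Subgroup.map V'.subtype) h2
    rw [MonoidHom.map_closure, Set.image_pair, ← MonoidHom.range_eq_map,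
      Subgroup.range_subtype] at h3
    exact h3.symm

end Pool.Agent.PP.T12.H62
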